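import Pool.Agent.helper48.TH.Spec3

set_option autoImplicit false

namespace TP.TW

open DP MeasureTheory Finset

theorem FN3_inj {n : ℕ} : Function.Injective (phi (n := n)) := by
  intro p q h
  simp only [phi, Prod.mk.injEq] at h
  obtain ⟨h1, h2⟩ := h
  ext <;> omega

theorem FN3_br {n : ℕ} (p : Fin n × Fin n) : br (phi p) = phi p := by
  apply br_of_even
  simp only [phi]
  omega

open Classical in
theorem FN3 (h1 : FNL_stmt) (h2 : SUA_stmt) (h3 : BR2_stmt) : FN3_stmt := by
  obtain ⟨C0, hC0, hS⟩ := h2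
  refine ⟨1 / (4 + 3 * C0), by positivity, fun n hn A B C hB hC hcr => ?_⟩
  have hL : (1 : ℝ) / 2 ≤ Real.log n := by
    have e1 : Real.log 2 ≤ Real.log n := Real.log_le_log (by norm_num) (by exact_mod_cast hn)
    have e2 := Real.log_two_gt_d9
    linarith
  have hpow : (0 : ℝ) < 2 ^ (n * n) := by positivity
  have hcard : (Fintype.card (Fin n × Fin n → Bool) : ℝ) = 2 ^ (n * n) := by
    simp [Fintype.card_prod]
  obtain ⟨a, ha⟩ : ∃ a : ℝ, a = (∑ x : Fin n × Fin n → Bool, (#(A ∪ B x ∪ C x) : ℝ)) / 2 ^ (n * n) :=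
    ⟨_, rfl⟩
  rw [← ha]
  -- the relevance inequality
  have e1 := h1 n (fun x => A ∪ B x) C (by omega) (by
    intro x y hxy
    have hA : ∀ p ∈ A, x p = y p := fun p hp => hxy p (Finset.mem_union_left _ hp)
    refine ⟨?_, (hC x y hxy).symm⟩
    show A ∪ B y = A ∪ B x
    rw [hB x y hA]) (fun x y hxy => hcr x y hxy)
  rw [← ha] at e1
  -- the two round set
  obtain ⟨Ω, hΩ⟩ : ∃ Ω : Finset V, Ω = (univ : Finset (Fin n × Fin n)).image phi := ⟨_, rfl⟩
  obtain ⟨B', hB'⟩ : ∃ B' : (V → Bool) → Finset V, B' = fun β => (B fun q => β (phi q)).image phi :=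
    ⟨_, rfl⟩
  have hsubA : A.image phi ⊆ (univ : Finset (Fin n × Fin n)).image phi :=
    Finset.image_subset_image (Finset.subset_univ _)
  have hTwo : Two (A.image phi) Ω B' := by
    refine ⟨?_, ?_, ?_, ?_⟩
    · intro v hv
      obtain ⟨p, _, rfl⟩ := Finset.mem_image.mp hv
      exact FN3_br p
    · intro v hv
      rw [hΩ] at hv
      obtain ⟨p, _, rfl⟩ := Finset.mem_image.mp hv
      exact FN3_br p
    · intro β
      rw [hΩ, hB']
      exact Finset.image_subset_image (Finset.subset_univ _)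
    · intro β β' hβ
      rw [hB']
      have : B (fun q => β (phi q)) = B (fun q => β' (phi q)) :=
        hB _ _ fun p hp => hβ _ (Finset.mem_image_of_mem phi hp)
      simp only [this]
  have e2 := hS n (A.image phi) Ω B' hn hsubA (by rw [hΩ]) hTwo
  have e3 : ∑ v₀ ∈ (univ : Finset (Fin n × Fin n)).image phi,
      Pr {β | BAD (col β) (((fun x => A ∪ B x) fun q => β (phi q)).image phi) v₀} =
      ∑ v₀ ∈ (univ : Finset (Fin n × Fin n)).image phi, Pr {β | BAD (col β) (A.image phi ∪ B' β) v₀} := by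
    refine Finset.sum_congr rfl fun v₀ _ => ?_
    have : ∀ β : V → Bool, ((fun x => A ∪ B x) fun q => β (phi q)).image phi = A.image phi ∪ B' β := by
      intro β
      rw [hB']
      exact Finset.image_union _ _
    simp only [this]
  rw [e3] at e1
  have hcA : (#(A.image phi) : ℝ) = #A := by
    rw [Finset.card_image_of_injective _ FN3_inj]
  have hsumB : ∑ v ∈ Ω, Pr {β | v ∈ B' β} =
      (∑ x : Fin n × Fin n → Bool, (#(B x) : ℝ)) / 2 ^ (n * n) := by
    rw [hΩ, Finset.sum_image fun p _ q _ h => FN3_inj h]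
    have g1 : ∀ p : Fin n × Fin n, Pr {β : V → Bool | phi p ∈ B' β} =
        (∑ x : Fin n × Fin n → Bool, if p ∈ B x then (1 : ℝ) else 0) / 2 ^ (n * n) := by
      intro p
      have : {β : V → Bool | phi p ∈ B' β} = {β : V → Bool | p ∈ B fun q => β (phi q)} := by
        ext β
        rw [hB']
        simp only [Set.mem_ofPred_eq, Finset.mem_image]
        constructor
        · rintro ⟨q, hq, hqp⟩
          exact FN3_inj hqp ▸ hq
        · intro hp
          exact ⟨p, hp, rfl⟩
      rw [this, h3 n (fun x => p ∈ B x), Finset.card_filter, Nat.cast_sum]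
      refine congrArg (fun z : ℝ => z / 2 ^ (n * n)) (Finset.sum_congr rfl fun x _ => ?_)
      by_cases hx : p ∈ B x
      · simp [hx]
      · simp [hx]
    rw [Finset.sum_congr rfl fun p _ => g1 p, ← Finset.sum_div]
    refine congrArg (fun z : ℝ => z / 2 ^ (n * n)) ?_
    have g2 : ∀ x : Fin n × Fin n → Bool, (#(B x) : ℝ) = ∑ p : Fin n × Fin n, if p ∈ B x then (1 : ℝ) else 0 := by
      intro x
      simp
    rw [Finset.sum_congr rfl fun x _ => g2 x, Finset.sum_comm]
  have hBa : (∑ x : Fin n × Fin n → Bool, (#(B x) : ℝ)) / 2 ^ (n * n) ≤ a := by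
    rw [ha]
    refine div_le_div_of_nonneg_right ?_ hpow.le
    refine Finset.sum_le_sum fun x _ => ?_
    have : #(B x) ≤ #(A ∪ B x ∪ C x) := Finset.card_le_card fun p hp =>
      Finset.mem_union_left _ (Finset.mem_union_right _ hp)
    exact_mod_cast this
  have hAa : (#A : ℝ) ≤ a := by
    rw [ha, le_div_iff₀ hpow, ← hcard]
    have g3 : ∑ _x : Fin n × Fin n → Bool, (#A : ℝ) ≤
        ∑ x : Fin n × Fin n → Bool, (#(A ∪ B x ∪ C x) : ℝ) := by
      refine Finset.sum_le_sum fun x _ => ?_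
      have : #A ≤ #(A ∪ B x ∪ C x) := Finset.card_le_card fun p hp =>
        Finset.mem_union_left _ (Finset.mem_union_left _ hp)
      exact_mod_cast this
    rw [Finset.sum_const, nsmul_eq_mul, Finset.card_univ] at g3
    linarith
  rw [hcA, hsumB] at e2
  obtain ⟨b, hb⟩ : ∃ b : ℝ, b = (∑ x : Fin n × Fin n → Bool, (#(B x) : ℝ)) / 2 ^ (n * n) := ⟨_, rfl⟩
  rw [← hb] at e2 hBa
  obtain ⟨L, hLL⟩ : ∃ L : ℝ, L = Real.log n := ⟨_, rfl⟩
  rw [← hLL] at e2 hL ⊢
  have ha0 : 0 ≤ a := le_trans (by positivity) hAa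
  have hL0 : 0 < L := by linarith
  have e4 : C0 * L * (#A * L + b) ≤ C0 * L * (a * L + a) := by
    refine mul_le_mul_of_nonneg_left ?_ (by positivity)
    have := mul_le_mul_of_nonneg_right hAa hL0.le
    linarith
  have e5 : (n : ℝ) ^ 2 ≤ a + C0 * L * (a * L + a) := by linarith
  have e6 : a ≤ 4 * L ^ 2 * a := by
    have : (1 : ℝ) ≤ 4 * L ^ 2 := by nlinarith
    nlinarith
  have e7 : C0 * L * a ≤ 2 * (C0 * L ^ 2 * a) := by
    have h7 : 0 ≤ C0 * L * a := by positivity
    have h8 : (0 : ℝ) ≤ 2 * L - 1 := by linarith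
    nlinarith [mul_nonneg h7 h8]
  have e8 : (n : ℝ) ^ 2 ≤ (4 + 3 * C0) * (L ^ 2 * a) := by
    have : a + C0 * L * (a * L + a) = a + C0 * L ^ 2 * a + C0 * L * a := by ring
    rw [this] at e5
    linarith
  rw [div_le_iff₀ (by positivity), one_div, inv_mul_le_iff₀ (by positivity)]
  linarith

end TP.TW
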